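import Pool.Agent.H41.AV.Defs

set_option autoImplicit false

namespace Pool.Agent.H501.AV

open Equiv Finset
open Pool.Agent.H41.AV

theorem sum_cnt {G : Type} [AddCommGroup G] [Fintype G] [DecidableEq G]
    (A : G → G → Option G) (ρ τ : Perm G) (x : G) : ∑ y, cnt A ρ τ x y = (cells A x).card := by
  unfold cnt cells
  simp only [Finset.card_filter]
  rw [Finset.sum_comm, Fintype.sum_prod_type]
  refine Finset.sum_congr rfl fun i _ => ?_
  exact Equiv.sum_comp ((Equiv.addLeft (ρ i)).trans τ.symm)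
    (fun j => if A i j = some x then (1 : ℕ) else 0)

theorem hall_final {ε s t N B η : ℝ} (hε : 0 < ε) (hB : 0 < B) (hη : η = ε ^ 3 / 12)
    (hB2 : 16 / ε ^ 3 ≤ B) (hN : 4 * B ^ 2 / ε ^ 4 < N) (hs : ε * N < s) (ht : ε / 2 * N < t)
    (h : s * (ε * t) ^ 2 ≤ (η * N + 2 * ((2 / B + η) * N)) * t ^ 2 + N * B ^ 2 * t) : False := by
  have hN0 : 0 < N := lt_of_le_of_lt (by positivity) hN
  have ht0 : 0 < t := lt_of_le_of_lt (by positivity) ht
  have hs0 : 0 < s := lt_of_le_of_lt (by positivity) hs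
  have h4 : 4 / B ≤ ε ^ 3 / 4 := by
    rw [div_le_iff₀ (by positivity)] at hB2
    rw [div_le_div_iff₀ hB (by norm_num)]
    linarith
  have h1 : s * ε ^ 2 * t ≤ (ε ^ 3 / 2) * N * t + N * B ^ 2 := by
    have h2 : (s * ε ^ 2 * t) * t ≤ ((ε ^ 3 / 2) * N * t + N * B ^ 2) * t := by
      calc (s * ε ^ 2 * t) * t = s * (ε * t) ^ 2 := by ring
        _ ≤ _ := h
        _ = (3 * η + 4 / B) * (N * t ^ 2) + N * B ^ 2 * t := by ring
        _ ≤ (ε ^ 3 / 2) * (N * t ^ 2) + N * B ^ 2 * t := by
            have : 3 * η + 4 / B ≤ ε ^ 3 / 2 := by rw [hη]; linarith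
            gcongr
        _ = _ := by ring
    exact le_of_mul_le_mul_right h2 ht0
  have h5 : (ε * N) * ε ^ 2 * t < s * ε ^ 2 * t := by gcongr
  have h6 : (ε ^ 3 / 2) * t * N < B ^ 2 * N := by nlinarith
  have h7 : (ε ^ 3 / 2) * t < B ^ 2 := lt_of_mul_lt_mul_right h6 hN0.le
  have h8 : (ε ^ 3 / 2) * (ε / 2 * N) < (ε ^ 3 / 2) * t := by gcongr
  rw [div_lt_iff₀ (by positivity)] at hN
  nlinarith

theorem hall (hq : S_QUAD) : S_HALL := by
  intro ε hε hε1
  obtain ⟨B, hB⟩ := exists_nat_ge (16 / ε ^ 3)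
  obtain ⟨n₁, hn₁⟩ := exists_nat_gt (4 * (B : ℝ) ^ 2 / ε ^ 4)
  have hBpos : (0 : ℝ) < B := lt_of_lt_of_le (by positivity) hB
  have hB1 : 1 ≤ B := by exact_mod_cast hBpos
  refine ⟨ε ^ 3 / 12, B, n₁, by positivity, hB1, ?_⟩
  intro G _ _ _ A ρ τ hN hcell hDD hGG hHH
  have hN' : (n₁ : ℝ) ≤ (Fintype.card G : ℝ) := by exact_mod_cast hN
  have hN0 : (0 : ℝ) < (Fintype.card G : ℝ) := lt_of_lt_of_le (lt_of_le_of_lt (by positivity) hn₁) hN'
  have key : ∀ S : Finset G, S.card ≤ (S.biUnion fun x => univ.filter fun y => cnt A ρ τ x y = 0).card := by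
    intro S
    obtain ⟨T, hT⟩ : ∃ T : Finset G, T = (S.biUnion fun x => univ.filter fun y => cnt A ρ τ x y = 0)ᶜ :=
      ⟨_, rfl⟩
    have hcard : (S.biUnion fun x => univ.filter fun y => cnt A ρ τ x y = 0).card + T.card =
        Fintype.card G := by rw [hT, Finset.card_add_card_compl]
    have hTm : ∀ x ∈ S, ∀ y ∈ T, 1 ≤ cnt A ρ τ x y := by
      intro x hx y hy
      rw [hT, Finset.mem_compl, Finset.mem_biUnion] at hy
      by_contra h0
      exact hy ⟨x, hx, Finset.mem_filter.2 ⟨Finset.mem_univ _, by omega⟩⟩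
    suffices hgoal : (S.card : ℝ) + T.card ≤ Fintype.card G by
      have : S.card + T.card ≤ Fintype.card G := by exact_mod_cast hgoal
      omega
    rcases S.eq_empty_or_nonempty with hS | ⟨x0, hx0⟩
    · rw [hS]
      have : T.card ≤ Fintype.card G := Finset.card_le_univ T
      have : (T.card : ℝ) ≤ Fintype.card G := by exact_mod_cast this
      simpa using this
    rcases T.eq_empty_or_nonempty with hT0 | ⟨y0, hy0⟩
    · rw [hT0]
      have : S.card ≤ Fintype.card G := Finset.card_le_univ S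
      have : (S.card : ℝ) ≤ Fintype.card G := by exact_mod_cast this
      simpa using this
    by_cases h1 : (S.card : ℝ) ≤ ε * Fintype.card G
    · have h2 : T.card ≤ (cells A x0).card := by
        rw [← sum_cnt A ρ τ x0]
        calc T.card = ∑ _y ∈ T, 1 := by simp
          _ ≤ ∑ y ∈ T, cnt A ρ τ x0 y := Finset.sum_le_sum fun y hy => hTm x0 hx0 y hy
          _ ≤ _ := Finset.sum_le_sum_of_subset (Finset.subset_univ T)
      have h3 : (T.card : ℝ) ≤ (cells A x0).card := by exact_mod_cast h2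
      have h4 := hcell x0
      linarith
    by_cases h2 : (T.card : ℝ) ≤ ε / 2 * Fintype.card G
    · have h3 : (S.card : ℝ) ≤ DD A ρ τ y0 := by
        unfold DD
        calc (S.card : ℝ) = ∑ _x ∈ S, (1 : ℝ) := by simp
          _ ≤ ∑ x ∈ S, tr 1 A ρ τ x y0 := Finset.sum_le_sum fun x hx => by
              have h4 := hTm x hx y0 hy0
              unfold tr
              rw [min_eq_right h4]
              simp
          _ ≤ _ := Finset.sum_le_sum_of_subset_of_nonneg (Finset.subset_univ S) fun x _ _ => by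
              unfold tr
              positivity
      have h4 := hDD y0
      linarith
    · exfalso
      push Not at h1 h2
      refine hall_final (N := (Fintype.card G : ℝ)) (s := (S.card : ℝ)) (t := (T.card : ℝ)) (B := (B : ℝ))
        hε hBpos rfl hB (lt_of_lt_of_le hn₁ hN') h1 h2 ?_
      refine hq G (fun x y => tr B A ρ τ x y) (pr A) S T B ε _ _ hε (fun x => ⟨?_, ?_⟩)
        (fun x y => ⟨?_, ?_⟩) (fun x hx y hy => ?_) (fun y _ => hGG y) (fun y _ y' _ hyy => hHH y y' hyy)
        (by positivity) (by positivity)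
      · unfold pr
        positivity
      · unfold pr
        rw [div_le_iff₀ hN0]
        exact hcell x
      · change 0 ≤ tr B A ρ τ x y
        unfold tr
        positivity
      · change tr B A ρ τ x y ≤ B
        unfold tr
        exact_mod_cast min_le_right _ _
      · change 1 ≤ tr B A ρ τ x y
        unfold tr
        have := le_min (hTm x hx y hy) hB1
        exact_mod_cast this
  obtain ⟨f, hf1, hf2⟩ := (Finset.all_card_le_biUnion_card_iff_exists_injective
    (fun x => univ.filter fun y => cnt A ρ τ x y = 0)).1 key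
  refine ⟨Equiv.ofBijective f (Finite.injective_iff_bijective.1 hf1), fun x => ?_⟩
  have := hf2 x
  rw [Finset.mem_filter] at this
  exact this.2

end Pool.Agent.H501.AV
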